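import Pool.Agent.H24.KTH.Geo

/-!
# KTH: row PT3, the time from the point and the two directions
-/

set_option autoImplicit false

namespace Pool.Agent.H24.KTH

open Finset Real
open Pool.Agent.H49.Ent Pool.Agent.H32.Dense

namespace Pt63

/-- The sup distance is attained if it is at least one. -/
lemma dsv_attained {d : ℕ} (x y : Fin d → ℤ) (h : 0 < dsv x y) :
    ∃ k, dsv x y = |(x k : ℝ) - y k| := by
  by_contra hno
  push Not at hno
  have hlt : ∀ k, |(x k : ℝ) - y k| < dsv x y := by
    intro k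
    refine lt_of_le_of_ne ?_ (Ne.symm (hno k))
    have h1 := norm_le_pi_norm (fun k => ((x k - y k : ℤ) : ℝ)) k
    unfold dsv
    rw [Real.norm_eq_abs] at h1
    push_cast at h1
    push_cast
    exact h1
  have h2 : dsv x y < dsv x y := by
    have h3 : ‖(fun k => ((x k - y k : ℤ) : ℝ))‖ < dsv x y := by
      refine (pi_norm_lt_iff h).mpr fun k => ?_
      rw [Real.norm_eq_abs]
      have := hlt k
      push_cast
      exact this
    exact h3
  exact lt_irrefl _ h2

lemma dsv_le {d : ℕ} (x y : Fin d → ℤ) {M : ℕ} (hx : ∀ k, |x k| ≤ M) (hy : ∀ k, |y k| ≤ M) :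
    dsv x y ≤ 2 * M := by
  unfold dsv
  refine (pi_norm_le_iff_of_nonneg (by positivity)).mpr fun k => ?_
  rw [Real.norm_eq_abs]
  have h1 : |(x k : ℝ)| ≤ M := by exact_mod_cast hx k
  have h2 : |(y k : ℝ)| ≤ M := by exact_mod_cast hy k
  push_cast
  calc |(x k : ℝ) - y k| ≤ |(x k : ℝ)| + |(y k : ℝ)| := abs_sub _ _
    _ ≤ 2 * M := by linarith

end Pt63

open Pt63

theorem pt3 : PT3Stmt := by
  intro d Ω _ ζ M q Z w uw v s c X h
  have hfam := h.fam
  have hM0 : (0 : ℝ) < M := by exact_mod_cast hfam.hM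
  have hM1 : (1 : ℝ) ≤ M := by exact_mod_cast hfam.hM
  have h1 := CH_le_int hfam.hp hfam.h1 s (fun ω => ((s ω + c ω, X ω), v ω, w ω, Z ω))
    (fun ω => 4 * (M / max (dsv (v ω) (w ω)) 1))
    (fun ω ω' a b e => by
      simp only [Prod.mk.injEq] at e
      obtain ⟨⟨e1, e2⟩, e3, e4, e5⟩ := e
      have eu : uw ω = uw ω' := hfam.hu ω ω' a b (by
        simp only [Prod.mk.injEq]
        exact ⟨e4, e5⟩)
      have r1 : (0 : ℝ) ≤ s ω := by exact_mod_cast (hfam.hτ ω a).1
      have r2 : (s ω : ℝ) < M := by exact_mod_cast (hfam.hτ ω a).2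
      have r3 : (0 : ℝ) ≤ s ω' := by exact_mod_cast (hfam.hτ ω' b).1
      have r4 : (s ω' : ℝ) < M := by exact_mod_cast (hfam.hτ ω' b).2
      have r5 : |(s ω : ℝ) - s ω'| ≤ M := by
        rw [abs_le]
        constructor <;> linarith
      push_cast
      rcases le_total (dsv (v ω) (w ω)) 1 with hd | hd
      · rw [max_eq_right hd, div_one]
        linarith
      · rw [max_eq_left hd]
        have hd0 : 0 < dsv (v ω) (w ω) := by linarith
        obtain ⟨k, hk⟩ := dsv_attained (v ω) (w ω) hd0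
        have a1 := abs_le.mp (h.hX ω a k)
        have a2 := abs_le.mp (h.hX ω' b k)
        unfold pos at a1 a2
        rw [← eu, ← e3, ← e4, ← e2] at a2
        have e1' : (s ω : ℝ) + c ω = s ω' + c ω' := by exact_mod_cast e1
        have e6 : ((uw ω k + (s ω : ℝ) / M * w ω k) + (c ω : ℝ) / M * v ω k) -
            ((uw ω k + (s ω' : ℝ) / M * w ω k) + (c ω' : ℝ) / M * v ω k) =
            -(((s ω : ℝ) - s ω') / M * ((v ω k : ℝ) - w ω k)) := by
          have : (c ω' : ℝ) = s ω + c ω - s ω' := by linarith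
          rw [this]
          ring
        have e7 : |((s ω : ℝ) - s ω') / M * ((v ω k : ℝ) - w ω k)| ≤ 4 := by
          rw [abs_le]
          constructor <;> linarith [a1.1, a1.2, a2.1, a2.2]
        rw [abs_mul, abs_div, Nat.abs_cast, ← hk] at e7
        have e8 : (4 : ℝ) * ((M : ℝ) / dsv (v ω) (w ω)) = 4 * M / dsv (v ω) (w ω) := by ring
        rw [e8, le_div_iff₀ hd0]
        have e9 : |(s ω : ℝ) - s ω'| / M * dsv (v ω) (w ω) * M =
            |(s ω : ℝ) - s ω'| * dsv (v ω) (w ω) := by
          field_simp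
        have e10 := mul_le_mul_of_nonneg_right e7 hM0.le
        linarith)
  refine h1.trans ?_
  have h2 : Ex q (fun ω => Real.log (2 * (4 * (M / max (dsv (v ω) (w ω)) 1)) + 1)) ≤
      Ex q (fun ω => lvv M (v ω) (w ω) + 5) := by
    refine Ex_mono hfam.hp fun ω hω => ?_
    set D : ℝ := max (dsv (v ω) (w ω)) 1 with hD
    have hD1 : 1 ≤ D := le_max_right _ _
    have hD0 : 0 < D := by linarith
    have hD2 : D ≤ 2 * M := by
      refine max_le (dsv_le (v ω) (w ω) (h.hv ω hω) (hfam.hv ω hω)) (by linarith)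
    have h3 : 1 ≤ 2 * ((M : ℝ) / D) := by
      rw [← mul_div_assoc, le_div_iff₀ hD0]
      linarith
    have h4 : 0 < (M : ℝ) / D := by positivity
    have h5 : lvv M (v ω) (w ω) = Real.log (M / D) := by
      unfold lvv
      rw [← hD]
    rw [h5]
    calc Real.log (2 * (4 * (M / D)) + 1) ≤ Real.log (10 * (M / D)) := by
          apply Real.log_le_log (by positivity)
          linarith
      _ = Real.log 10 + Real.log (M / D) := Real.log_mul (by norm_num) h4.ne'
      _ ≤ Real.log (M / D) + 5 := by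
          have : Real.log 10 ≤ (3 : ℕ) := log_le_of_pow (by norm_num) (by norm_num)
          push_cast at this
          linarith
  rw [Ex_add, Ex_const hfam.h1] at h2
  exact h2

end Pool.Agent.H24.KTH
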